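import Mathlib

/-!
# Three circles: log L is small where L has no zeros

Project `N846/ZD` (helper846), problem `MP_52e316_nt`, part TC; only Mathlib is used here.
-/

set_option autoImplicit false

namespace Pool.Agent.N316.ZD

open Complex Set Metric Filter Topology

/-- a branch of the logarithm on a ball -/
theorem exists_log {F : ℂ → ℂ} (hF : Differentiable ℂ F) {c : ℂ} {R : ℝ} (hR : 0 < R)
    (h0 : ∀ z ∈ ball c R, F z ≠ 0) {v : ℂ} (hv : F c = exp v) :
    ∃ g : ℂ → ℂ, g c = v ∧ DifferentiableOn ℂ g (ball c R) ∧ ∀ z ∈ ball c R, F z = exp (g z) := by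
  have hd : DifferentiableOn ℂ (fun z => deriv F z / F z) (ball c R) := by
    intro z hz
    refine DifferentiableAt.differentiableWithinAt ?_
    exact (hF.deriv z).div (hF z) (h0 z hz)
  obtain ⟨g, hg1, hg2⟩ := hd.isExactOn_ball.with_val_at c v
  have hgd : DifferentiableOn ℂ g (ball c R) := fun z hz =>
    (hg2 z hz).differentiableAt.differentiableWithinAt
  refine ⟨g, hg1, hgd, fun z hz => ?_⟩
  have h1 : DifferentiableOn ℂ (fun z => F z * exp (-g z)) (ball c R) :=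
    (hF.differentiableOn).mul (hgd.neg.cexp)
  have h2 : (ball c R).EqOn (deriv fun z => F z * exp (-g z)) 0 := by
    intro w hw
    have e1 : HasDerivAt (fun z => F z * exp (-g z))
        (deriv F w * exp (-g w) + F w * (exp (-g w) * (-(deriv F w / F w)))) w :=
      ((hF w).hasDerivAt).mul ((hg2 w hw).neg.cexp)
    rw [e1.deriv]
    have e2 := h0 w hw
    simp only [Pi.zero_apply]
    field_simp
    ring
  have h3 := isOpen_ball.is_const_of_deriv_eq_zero (convex_ball c R).isPreconnected h1 h2 hz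
    (mem_ball_self hR)
  simp only [hg1, hv] at h3
  rw [← exp_add, add_neg_cancel, exp_zero] at h3
  calc F z = F z * exp (-g z) * exp (g z) := by
        rw [mul_assoc, ← exp_add, neg_add_cancel, exp_zero, mul_one]
    _ = exp (g z) := by rw [h3, one_mul]

/-- two branches of the logarithm coincide -/
theorem branch_eq {S : Set ℂ} (hS : IsPreconnected S) {g l : ℂ → ℂ} (hg : ContinuousOn g S)
    (hl : ContinuousOn l S) (h : ∀ z ∈ S, exp (g z) = exp (l z)) {c : ℂ} (hc : c ∈ S)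
    (hcl : g c = l c) {z : ℂ} (hz : z ∈ S) : g z = l z := by
  have key : ∀ w ∈ S, ‖g w - l w‖ ≠ Real.pi := by
    intro w hw h1
    obtain ⟨n, hn⟩ := Complex.exp_eq_exp_iff_exists_int.1 (h w hw)
    have e1 : g w - l w = n * (2 * Real.pi * I) := by rw [hn]; ring
    rw [e1, norm_mul, norm_mul, norm_mul, norm_I, mul_one, Complex.norm_real,
      Real.norm_of_nonneg Real.pi_pos.le, Complex.norm_intCast] at h1
    have e2 : ‖(2 : ℂ)‖ = 2 := by simp
    rw [e2] at h1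
    have hpi := Real.pi_pos
    have e3 : (|(n : ℝ)| * 2) * Real.pi = 1 * Real.pi := by linarith
    have e4 := mul_right_cancel₀ hpi.ne' e3
    have e5 : (|n| * 2 : ℤ) = 1 := by
      have : ((|n| * 2 : ℤ) : ℝ) = ((1 : ℤ) : ℝ) := by push_cast; exact e4
      exact_mod_cast this
    omega
  by_contra hne
  obtain ⟨n, hn⟩ := Complex.exp_eq_exp_iff_exists_int.1 (h z hz)
  have e1 : g z - l z = n * (2 * Real.pi * I) := by rw [hn]; ring
  have hn0 : n ≠ 0 := by
    rintro rfl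
    apply hne
    rw [hn]
    simp
  have e2 : Real.pi ≤ ‖g z - l z‖ := by
    rw [e1, norm_mul, norm_mul, norm_mul, norm_I, mul_one, Complex.norm_real,
      Real.norm_of_nonneg Real.pi_pos.le, Complex.norm_intCast]
    have e2 : ‖(2 : ℂ)‖ = 2 := by simp
    rw [e2]
    have e3 : (1 : ℝ) ≤ |(n : ℝ)| := by
      have : (1 : ℤ) ≤ |n| := Int.one_le_abs hn0
      exact_mod_cast this
    have hpi := Real.pi_pos
    nlinarith
  have e3 : Real.pi ∈ Icc ‖g c - l c‖ ‖g z - l z‖ := by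
    rw [hcl, sub_self, norm_zero]
    exact ⟨Real.pi_pos.le, e2⟩
  obtain ⟨w, hw, hw2⟩ := hS.intermediate_value hc hz ((hg.sub hl).norm) e3
  exact key w hw hw2

/-- Hadamard's three circles theorem -/
theorem three_circles {g : ℂ → ℂ} {c : ℂ} {r₁ r₃ R : ℝ} (hr₁ : 0 < r₁) (h13 : r₁ < r₃)
    (h3R : r₃ < R) (hg : DifferentiableOn ℂ g (ball c R)) {a b : ℝ}
    (ha : ∀ z, dist z c = r₁ → ‖g z‖ ≤ a) (hb : ∀ z ∈ closedBall c r₃, ‖g z‖ ≤ b) {s : ℂ}
    (hs1 : r₁ ≤ dist s c) (hs3 : dist s c ≤ r₃) :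
    ‖g s‖ ≤ a ^ (1 - Real.log (dist s c / r₁) / Real.log (r₃ / r₁)) *
      b ^ (Real.log (dist s c / r₁) / Real.log (r₃ / r₁)) := by
  have hr₃ : 0 < r₃ := hr₁.trans h13
  obtain ⟨L, hL⟩ : ∃ L : ℝ, L = Real.log (r₃ / r₁) := ⟨_, rfl⟩
  have hL0 : 0 < L := by
    rw [hL]
    exact Real.log_pos ((one_lt_div hr₁).2 h13)
  have hexpL : r₁ * Real.exp L = r₃ := by
    rw [hL, Real.exp_log (by positivity)]
    field_simp
  obtain ⟨h, hh⟩ : ∃ h : ℂ → ℂ, h = fun z => g (c + r₁ * exp (z * L)) := ⟨_, rfl⟩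
  have hdist : ∀ z : ℂ, dist (c + r₁ * exp (z * L)) c = r₁ * Real.exp (z.re * L) := by
    intro z
    rw [dist_eq_norm, add_sub_cancel_left, norm_mul, Complex.norm_real,
      Real.norm_of_nonneg hr₁.le, Complex.norm_exp]
    simp
  have hle : ∀ z : ℂ, z.re ≤ 1 → dist (c + r₁ * exp (z * L)) c ≤ r₃ := by
    intro z hz
    rw [hdist, ← hexpL]
    have : z.re * L ≤ L := by nlinarith
    gcongr
  have hdiff : DiffContOnCl ℂ h (HadamardThreeLines.verticalStrip 0 1) := by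
    apply DifferentiableOn.diffContOnCl
    intro z hz
    have hz1 : z.re ≤ 1 := by
      have e1 : closure (HadamardThreeLines.verticalStrip 0 1) ⊆ {z : ℂ | z.re ≤ 1} := by
        apply closure_minimal
        · intro w hw
          exact (hw.2).le
        · exact isClosed_le continuous_re continuous_const
      exact e1 hz
    have e2 : c + r₁ * exp (z * L) ∈ ball c R := by
      rw [mem_ball]
      exact (hle z hz1).trans_lt h3R
    have e3 : DifferentiableAt ℂ g (c + r₁ * exp (z * L)) :=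
      (hg _ e2).differentiableAt (isOpen_ball.mem_nhds e2)
    rw [hh]
    refine DifferentiableAt.differentiableWithinAt ?_
    have e4 : DifferentiableAt ℂ (fun z : ℂ => c + r₁ * exp (z * L)) z := by fun_prop
    exact DifferentiableAt.comp z e3 e4
  have hs0 : s - c ≠ 0 := by
    intro h0
    have : dist s c = 0 := by rw [dist_eq_norm, h0, norm_zero]
    linarith
  have hr₁c : (r₁ : ℂ) ≠ 0 := by exact_mod_cast hr₁.ne'
  have hLc : (L : ℂ) ≠ 0 := by exact_mod_cast hL0.ne'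
  obtain ⟨z, hz⟩ : ∃ z : ℂ, z = Complex.log ((s - c) / r₁) / L := ⟨_, rfl⟩
  have hzs : c + r₁ * exp (z * L) = s := by
    rw [hz, div_mul_cancel₀ _ hLc, exp_log (div_ne_zero hs0 hr₁c), mul_div_cancel₀ _ hr₁c]
    ring
  have hzre : z.re = Real.log (dist s c / r₁) / L := by
    rw [hz]
    have e1 : (Complex.log ((s - c) / r₁) / (L : ℂ)).re = (Complex.log ((s - c) / r₁)).re / L :=
      Complex.div_ofReal_re _ _
    rw [e1, Complex.log_re, norm_div, Complex.norm_real, Real.norm_of_nonneg hr₁.le,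
      ← dist_eq_norm]
  have hz0 : 0 ≤ z.re := by
    rw [hzre]
    exact div_nonneg (Real.log_nonneg ((one_le_div hr₁).2 hs1)) hL0.le
  have hz1 : z.re ≤ 1 := by
    rw [hzre, div_le_one hL0, hL]
    have hd0 : 0 < dist s c := by linarith
    apply Real.log_le_log (by positivity)
    gcongr
  have main := HadamardThreeLines.norm_le_interp_of_mem_verticalClosedStrip₀₁' h (z := z) (a := a)
    (b := b) ⟨hz0, hz1⟩ hdiff ?_ ?_ ?_
  · rw [hh] at main
    simp only [hzs] at main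
    rw [hzre, hL] at main
    exact main
  · refine ⟨b, ?_⟩
    rintro _ ⟨w, hw, rfl⟩
    simp only [Function.comp, hh]
    exact hb _ (hle w hw.2)
  · intro w hw
    simp only [mem_preimage, mem_singleton_iff] at hw
    rw [hh]
    apply ha
    rw [hdist, hw]
    simp
  · intro w hw
    simp only [mem_preimage, mem_singleton_iff] at hw
    rw [hh]
    exact hb _ (hle w hw.le)

/-- choice of `η` -/
theorem exists_eta {θ K δ : ℝ} (hθ : θ < 1) (hδ : 0 < δ) :
    ∃ η : ℝ, 0 < η ∧ η ≤ 1 ∧ η ≤ δ ∧ η ^ (1 - θ) * K ^ θ ≤ δ := by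
  have h1 : Tendsto (fun η : ℝ => η ^ (1 - θ) * K ^ θ) (𝓝[>] 0) (𝓝 0) := by
    have e1 : Tendsto (fun η : ℝ => η ^ (1 - θ)) (𝓝 0) (𝓝 (0 ^ (1 - θ))) :=
      (Real.continuousAt_rpow_const 0 (1 - θ) (Or.inr (by linarith))).tendsto
    rw [Real.zero_rpow (by linarith)] at e1
    have e2 := (e1.mul_const (K ^ θ)).mono_left (nhdsWithin_le_nhds (s := Ioi 0))
    rwa [zero_mul] at e2
  have h2 : ∀ᶠ η : ℝ in 𝓝[>] 0, η ^ (1 - θ) * K ^ θ < δ := h1.eventually (gt_mem_nhds hδ)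
  have h3 : ∀ᶠ η : ℝ in 𝓝[>] 0, η < 1 := nhdsWithin_le_nhds (gt_mem_nhds one_pos)
  have h4 : ∀ᶠ η : ℝ in 𝓝[>] 0, η < δ := nhdsWithin_le_nhds (gt_mem_nhds hδ)
  have h5 : ∀ᶠ η : ℝ in 𝓝[>] 0, η ∈ Ioi (0 : ℝ) := self_mem_nhdsWithin
  obtain ⟨η, ⟨a1, a2⟩, a3, a4⟩ := ((h2.and h3).and (h4.and h5)).exists
  exact ⟨η, a4, a2.le, a3.le, a1.le⟩

theorem tc_pos (σ ε δ : ℝ) (hσ : 0 ≤ σ) (hε : 0 < ε) (hσε : σ + ε ≤ 1) (hδ : 0 < δ) :
    ∃ η : ℝ, 0 < η ∧
  ∀ (F l : ℂ → ℂ) (t M : ℝ), 0 < M → Differentiable ℂ F →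
    (∀ s : ℂ, σ < s.re → |s.im - t| < 2 → F s ≠ 0) →
    (∀ s : ℂ, σ < s.re → s.re < 3 → |s.im - t| < 2 → ‖F s‖ ≤ Real.exp M) →
    (∀ s : ℂ, 5 / 4 ≤ s.re → F s = Complex.exp (l s)) → ContinuousOn l {s : ℂ | 5 / 4 ≤ s.re} →
    (∀ s : ℂ, 5 / 4 ≤ s.re → ‖l s‖ ≤ η * M) →
    ∀ s : ℂ, σ + ε ≤ s.re → s.im = t → Real.exp (-(δ * M)) ≤ ‖F s‖ ∧
      ‖F s‖ ≤ Real.exp (δ * M) := by
  -- the radii
  obtain ⟨R, hR⟩ : ∃ R : ℝ, R = 2 - σ := ⟨_, rfl⟩
  obtain ⟨r₃, hr₃⟩ : ∃ r : ℝ, r = 2 - σ - ε / 2 := ⟨_, rfl⟩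
  obtain ⟨r₂, hr₂⟩ : ∃ r : ℝ, r = 2 - σ - ε := ⟨_, rfl⟩
  have h23 : r₂ < r₃ := by rw [hr₂, hr₃]; linarith
  have h3R : r₃ < R := by rw [hR, hr₃]; linarith
  have h2 : 1 ≤ r₂ := by rw [hr₂]; linarith
  have h13 : 3 / 4 < r₃ := by linarith
  obtain ⟨K, hK⟩ : ∃ K : ℝ, K = (3 * r₃ + R) / (R - r₃) := ⟨_, rfl⟩
  have hK1 : 1 ≤ K := by
    rw [hK, le_div_iff₀ (by linarith)]
    linarith
  have hK0 : 0 < K := by linarith
  obtain ⟨θ, hθ⟩ : ∃ θ : ℝ, θ = Real.log (r₂ / (3 / 4)) / Real.log (r₃ / (3 / 4)) := ⟨_, rfl⟩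
  have hL0 : 0 < Real.log (r₃ / (3 / 4)) := Real.log_pos ((one_lt_div (by norm_num)).2 h13)
  have hθ1 : θ < 1 := by
    rw [hθ, div_lt_one hL0]
    exact Real.log_lt_log (by positivity) (by gcongr)
  obtain ⟨η, hη0, hη1, hηδ, hηK⟩ := exists_eta (K := K) hθ1 hδ
  refine ⟨η, hη0, ?_⟩
  intro F l t M hM hF hF0 hFM hFl hlc hl s hs hst
  have hnorm : ∀ (x y : ℂ), F x = exp y → ‖y‖ ≤ δ * M → Real.exp (-(δ * M)) ≤ ‖F x‖ ∧
      ‖F x‖ ≤ Real.exp (δ * M) := by
    intro x y hxy hy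
    rw [hxy, Complex.norm_exp, Real.exp_le_exp, Real.exp_le_exp]
    have := abs_le.1 ((Complex.abs_re_le_norm y).trans hy)
    exact this
  rcases le_or_gt (5 / 4) s.re with h54 | h54
  · refine hnorm s (l s) (hFl s h54) ((hl s h54).trans ?_)
    gcongr
  -- the centre
  obtain ⟨c, hc⟩ : ∃ c : ℂ, c = ⟨2, t⟩ := ⟨_, rfl⟩
  have hcre : c.re = 2 := by rw [hc]
  have hcim : c.im = t := by rw [hc]
  have hre : ∀ z : ℂ, |z.re - 2| ≤ dist z c := by
    intro z
    rw [dist_eq_norm, ← hcre, ← sub_re]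
    exact abs_re_le_norm _
  have him : ∀ z : ℂ, |z.im - t| ≤ dist z c := by
    intro z
    rw [dist_eq_norm, ← hcim, ← sub_im]
    exact abs_im_le_norm _
  have hball1 : ∀ z ∈ ball c R, σ < z.re ∧ |z.im - t| < 2 := by
    intro z hz
    rw [mem_ball, hR] at hz
    constructor
    · have := (abs_le.1 ((hre z).trans hz.le)).1
      have := (abs_lt.1 ((hre z).trans_lt hz)).1
      linarith
    · exact ((him z).trans_lt hz).trans_le (by linarith)
  have hball0 : ∀ z ∈ ball c R, F z ≠ 0 := fun z hz => hF0 z (hball1 z hz).1 (hball1 z hz).2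
  have hballM : ∀ z ∈ ball c R, ‖F z‖ ≤ Real.exp M := by
    intro z hz
    rcases lt_or_ge z.re 3 with h3 | h3
    · exact hFM z (hball1 z hz).1 h3 (hball1 z hz).2
    · rw [hFl z (by linarith), Complex.norm_exp, Real.exp_le_exp]
      have e1 := (Complex.re_le_norm (l z)).trans (hl z (by linarith))
      refine e1.trans ?_
      nlinarith
  have hR0 : 0 < R := by linarith
  have hFc : F c = exp (l c) := hFl c (by rw [hcre]; norm_num)
  obtain ⟨g, hgc, hgd, hgF⟩ := exists_log hF hR0 hball0 hFc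
  -- the two branches coincide
  have hS : IsPreconnected (ball c R ∩ {z : ℂ | 5 / 4 ≤ z.re}) := by
    apply Convex.isPreconnected
    exact (convex_ball c R).inter (convex_halfSpace_re_ge (5 / 4))
  have hgl : ∀ z ∈ ball c R, 5 / 4 ≤ z.re → g z = l z := by
    intro z hz hz2
    exact branch_eq hS (hgd.continuousOn.mono inter_subset_left) (hlc.mono inter_subset_right)
      (fun w hw => by rw [← hgF w hw.1, ← hFl w hw.2])
      ⟨mem_ball_self hR0, by rw [mem_ofPred_eq, hcre]; norm_num⟩ hgc ⟨hz, hz2⟩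
  have hg1 : ∀ z, dist z c = 3 / 4 → ‖g z‖ ≤ η * M := by
    intro z hz
    have e1 : 5 / 4 ≤ z.re := by
      have := (abs_le.1 (hre z)).1
      linarith
    rw [hgl z (by rw [mem_ball]; linarith) e1]
    exact hl z e1
  have hgc1 : ‖g c‖ ≤ η * M := by
    rw [hgc]
    exact hl c (by rw [hcre]; norm_num)
  -- Borel-Caratheodory
  have hg3 : ∀ z ∈ closedBall c r₃, ‖g z‖ ≤ K * M := by
    intro z hz
    rw [mem_closedBall] at hz
    have e1 : DifferentiableOn ℂ (fun w => g (c + w)) (ball 0 R) := by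
      intro w hw
      have e2 : c + w ∈ ball c R := by
        rw [mem_ball, dist_eq_norm, add_sub_cancel_left]
        rwa [mem_ball_zero_iff] at hw
      have e3 : DifferentiableAt ℂ g (c + w) := (hgd _ e2).differentiableAt
        (isOpen_ball.mem_nhds e2)
      refine DifferentiableAt.differentiableWithinAt ?_
      exact DifferentiableAt.comp w e3 (by fun_prop)
    have e4 : MapsTo (fun w => g (c + w)) (ball 0 R) {z | z.re ≤ M} := by
      intro w hw
      have e2 : c + w ∈ ball c R := by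
        rw [mem_ball, dist_eq_norm, add_sub_cancel_left]
        rwa [mem_ball_zero_iff] at hw
      have e3 := hballM _ e2
      rw [hgF _ e2, Complex.norm_exp, Real.exp_le_exp] at e3
      exact e3
    have e5 : ‖z - c‖ ≤ r₃ := by rw [← dist_eq_norm]; exact hz
    have e6 : z - c ∈ ball (0 : ℂ) R := by
      rw [mem_ball_zero_iff]
      linarith
    have e7 := Complex.borelCaratheodory hM e1 e4 hR0 e6
    simp only [add_sub_cancel, add_zero] at e7
    refine e7.trans ?_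
    have e8 : 0 < R - ‖z - c‖ := by linarith
    have e9 : ‖g c‖ ≤ M := hgc1.trans (by nlinarith)
    have e10 := norm_nonneg (z - c)
    rw [← add_div, hK, div_mul_eq_mul_div]
    have e11 : 0 < R - r₃ := by linarith
    have e12 : R - r₃ ≤ R - ‖z - c‖ := by linarith
    have e13 : 2 * M * ‖z - c‖ + ‖g c‖ * (R + ‖z - c‖) ≤ (3 * r₃ + R) * M := by
      have a1 : 2 * M * ‖z - c‖ ≤ 2 * M * r₃ := by gcongr
      have a2 : ‖g c‖ * (R + ‖z - c‖) ≤ M * (R + r₃) := by gcongr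
      linarith
    exact div_le_div₀ (by positivity) e13 e11 e12
  -- three circles
  have hsc : dist s c = 2 - s.re := by
    rw [dist_eq_norm]
    have e1 : s - c = ((s.re - 2 : ℝ) : ℂ) := by
      apply Complex.ext
      · rw [sub_re, hcre, ofReal_re]
      · rw [sub_im, hcim, hst, ofReal_im, sub_self]
    rw [e1, Complex.norm_real, Real.norm_eq_abs, abs_of_neg (by linarith)]
    ring
  have hs1 : 3 / 4 ≤ dist s c := by rw [hsc]; linarith
  have hs2 : dist s c ≤ r₂ := by rw [hsc, hr₂]; linarith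
  have hsball : s ∈ ball c R := by
    rw [mem_ball]
    linarith
  have main := three_circles (by norm_num : (0 : ℝ) < 3 / 4) h13 h3R hgd hg1 hg3 hs1
    (hs2.trans h23.le)
  obtain ⟨x, hx⟩ : ∃ x : ℝ, x = Real.log (dist s c / (3 / 4)) / Real.log (r₃ / (3 / 4)) :=
    ⟨_, rfl⟩
  rw [← hx] at main
  have hx0 : 0 ≤ x := by
    rw [hx]
    exact div_nonneg (Real.log_nonneg ((one_le_div (by norm_num)).2 hs1)) hL0.le
  have hxθ : x ≤ θ := by
    rw [hx, hθ]
    have e0 : 0 < dist s c := by linarith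
    gcongr
  refine hnorm s (g s) (hgF s hsball) (main.trans ?_)
  have e1 : (η * M) ^ (1 - x) * (K * M) ^ x = η * (K / η) ^ x * M := by
    rw [Real.mul_rpow hη0.le hM.le, Real.mul_rpow hK0.le hM.le, Real.div_rpow hK0.le hη0.le,
      Real.rpow_sub hη0, Real.rpow_sub hM, Real.rpow_one, Real.rpow_one]
    have a1 : 0 < η ^ x := Real.rpow_pos_of_pos hη0 x
    have a2 : 0 < M ^ x := Real.rpow_pos_of_pos hM x
    field_simp
  rw [e1]
  have e2 : η * (K / η) ^ θ = η ^ (1 - θ) * K ^ θ := by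
    rw [Real.div_rpow hK0.le hη0.le, Real.rpow_sub hη0, Real.rpow_one]
    have a1 : 0 < η ^ θ := Real.rpow_pos_of_pos hη0 θ
    field_simp
  have e3 : (K / η) ^ x ≤ (K / η) ^ θ := by
    apply Real.rpow_le_rpow_of_exponent_le _ hxθ
    rw [one_le_div hη0]
    linarith
  calc η * (K / η) ^ x * M ≤ η * (K / η) ^ θ * M := by gcongr
    _ ≤ δ * M := by
        rw [e2]
        gcongr

/-- The statement `S_TC`. -/
theorem tc_abs : ∀ σ ε δ : ℝ, 0 ≤ σ → 0 < ε → σ + ε ≤ 1 → 0 < δ → ∃ η : ℝ, 0 < η ∧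
  ∀ (F l : ℂ → ℂ) (t M : ℝ), 0 ≤ M → Differentiable ℂ F →
    (∀ s : ℂ, σ < s.re → |s.im - t| < 2 → F s ≠ 0) →
    (∀ s : ℂ, σ < s.re → s.re < 3 → |s.im - t| < 2 → ‖F s‖ ≤ Real.exp M) →
    (∀ s : ℂ, 5 / 4 ≤ s.re → F s = Complex.exp (l s)) → ContinuousOn l {s : ℂ | 5 / 4 ≤ s.re} →
    (∀ s : ℂ, 5 / 4 ≤ s.re → ‖l s‖ ≤ η * M) →
    ∀ s : ℂ, σ + ε ≤ s.re → s.im = t → Real.exp (-(δ * M)) ≤ ‖F s‖ ∧
      ‖F s‖ ≤ Real.exp (δ * M) := by
  intro σ ε δ hσ hε hσε hδ
  obtain ⟨η, hη0, hη⟩ := tc_pos σ ε δ hσ hε hσε hδ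
  refine ⟨η, hη0, ?_⟩
  intro F l t M hM hF hF0 hFM hFl hlc hl s hs hst
  have key : ∀ᶠ M' : ℝ in 𝓝[>] M, Real.exp (-(δ * M')) ≤ ‖F s‖ ∧
      ‖F s‖ ≤ Real.exp (δ * M') := by
    filter_upwards [self_mem_nhdsWithin] with M' hM'
    have hM'' : M < M' := hM'
    refine hη F l t M' (by linarith) hF hF0 (fun z h1 h2 h3 => (hFM z h1 h2 h3).trans ?_) hFl hlc
      (fun z hz => (hl z hz).trans ?_) s hs hst
    · exact Real.exp_le_exp.2 hM''.le
    · gcongr
  have h1 : Tendsto (fun M' : ℝ => Real.exp (-(δ * M'))) (𝓝[>] M) (𝓝 (Real.exp (-(δ * M)))) := by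
    have : Continuous fun M' : ℝ => Real.exp (-(δ * M')) := by fun_prop
    exact (this.tendsto M).mono_left nhdsWithin_le_nhds
  have h2 : Tendsto (fun M' : ℝ => Real.exp (δ * M')) (𝓝[>] M) (𝓝 (Real.exp (δ * M))) := by
    have : Continuous fun M' : ℝ => Real.exp (δ * M') := by fun_prop
    exact (this.tendsto M).mono_left nhdsWithin_le_nhds
  exact ⟨le_of_tendsto h1 (key.mono fun _ h => h.1), ge_of_tendsto h2 (key.mono fun _ h => h.2)⟩

end Pool.Agent.N316.ZD
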